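import Pool.Agent.H502.EC.A12

/-!
# MP_3099cf_nt: the Hecke identities of the conjecture at a small proportion of the primes

Let `K` be a number field (in the problem: imaginary quadratic of class number one), `p ≥ 5` a prime,
`k` an algebraically closed field of characteristic `p` and `N ≠ 0` a level. The space
`V = H¹(Y₀(N), k)` is of finite dimension, the Hecke operators `T_v`, `v ∤ p N`, commute, and to each
system `(a_v)` of eigenvalues in `V` belongs a representation `σ : G_K → GL₂(k)` with
`Tr σ(Frob_v) = a_v` and `det σ(Frob_v) = N(v)`, by the theorem of Scholze. These are the only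
properties of `V` which are used (`bad` is the set of the places dividing `p N`).

Let `E : y² = x³ + Ax + B` be an elliptic curve over `K` such that the image of `G_K` in `Aut(E[p])`
contains `SL₂(𝔽_p)`.

**Result.** Let `c ≠ 0` be ANY class in `V` (not necessarily an eigenform) such that

  `T_v c = Tr(ρ_E(Frob_v)) c` for a set of primes `v` of upper density greater than `1 / (p - 1)`.

Then for some `d ≠ 0` there is an eigenform `c' ∈ V` which satisfies ALL the identities

  `T_v c' = Tr(ρ_{E'}(Frob_v)) c'`, `v ∤ p N`, of the quadratic twist `E' : y² = x³ + Ad²x + Bd³`.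

If the upper density is greater than `p / (2 (p - 1))`, this holds with `d = 1`, that is, for `E`.

So (for the Serre conductor `N` of `ρ_E`) the conclusion of Q1 holds for `E` if and only if a nonzero
class of level `N` satisfies the identity of Q1 for slightly more than half of the primes, and if it
satisfies the identity for the proportion `1 / (p - 1)` of the primes, which is arbitrarily small for
large `p`, then a quadratic twist of `ρ_E` occurs in the level `N`.

Proof. Let `W` be the space of the classes which satisfy the given identities. It is stable under all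
Hecke operators and contains a simultaneous eigenvector `c'`; let `σ` be its representation. The
determinants of `σ` and of `ρ_E` are equal (for `ρ_E` we use the relation `φ² - a_v φ + q_v = 0` for the
Frobenius on the points of order `p`), and the traces of `σ` and `ρ_E` agree at the Frobenius elements
of many primes. If `σ` is not `ρ_E ⊗ ε` for a character `ε`, then by Goursat's lemma and the simplicity
of `PSL₂(𝔽_p)` the group `ρ_E(ker σ)` contains `SL₂(𝔽_p)`, and the traces agree on the proportion
`1 / (p - 1)` of the elements at most: a given trace occurs with at most this proportion in a coset of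
`SL₂(𝔽_p)`. Otherwise `ε² = 1`, and `σ` is the representation of the twist of `E` by `d`, where `K(√d)`
is the fixed field of the kernel of `ε`; if `ε ≠ 1` the traces agree on the proportion
`1 / 2 + 1 / (2 (p - 1))` of the elements at most.
-/

set_option autoImplicit false

open WeierstrassCurve NumberField IsDedekindDomain

namespace Pool.Agent.Results.MP_3099cf_nt.FewHeckeIdentities

section
variable {K : Type} [Field K]

/-- The absolute Galois group. -/
abbrev Gal (K : Type) [Field K] : Type := AlgebraicClosure K ≃ₐ[K] AlgebraicClosure K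

/-- The curve `y² = x³ + Ax + B` over the field `K`. -/
def curve (A B : K) : WeierstrassCurve K := ⟨0, 0, 0, A, B⟩

/-- The set of its points over the algebraic closure of `K`. -/
def Points (A B : K) : Type := ((curve A B).baseChange (AlgebraicClosure K)).toAffine.Point

open scoped Classical in
/-- The group law. -/
noncomputable instance (A B : K) : AddCommGroup (Points A B) :=
  inferInstanceAs (AddCommGroup ((curve A B).baseChange (AlgebraicClosure K)).toAffine.Point)

open scoped Classical in
/-- The point `x(P)`. -/
noncomputable def conj {A B : K} (x : Gal K) (P : Points A B) : Points A B :=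
  WeierstrassCurve.Affine.Point.map (W' := curve A B)
    (x : AlgebraicClosure K →ₐ[K] AlgebraicClosure K) P

/-- The set of the points killed by `n`. -/
def Torsion (A B : K) (n : ℕ) : Set (Points A B) := {P | n • P = 0}

/-- `ρ` is the representation of the Galois group on the points of order `p` of `y² = x³ + Ax + B`, in
some basis: there are coordinates `e : E[p] → 𝔽_p²` in which `x` acts through the matrix `ρ(x)` (the
values of `e` at the other points are irrelevant). -/
def IsTorsionRepresentation (A B : K) (p : ℕ) (ρ : Gal K →* GL (Fin 2) (ZMod p)) : Prop :=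
  ∃ e : Points A B → (Fin 2 → ZMod p), Set.BijOn e (Torsion A B p) Set.univ ∧
    (∀ P ∈ Torsion A B p, ∀ Q ∈ Torsion A B p, e (P + Q) = e P + e Q) ∧
    ∀ x : Gal K, ∀ P ∈ Torsion A B p, e (conj x P) = (ρ x).val.mulVec (e P)

end

section
variable {K : Type} [Field K] [NumberField K]

/-- `x` is a Frobenius element at the place `v`: `x(y) ≡ y ^ N(v)` modulo `Q` for all algebraic integers
`y`, for some maximal ideal `Q` above `v`. -/
def IsFrobenius (v : HeightOneSpectrum (𝓞 K)) (x : Gal K) : Prop :=
  ∃ Q : Ideal (𝓞 (AlgebraicClosure K)), Q.IsMaximal ∧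
    Q.comap (algebraMap (𝓞 K) (𝓞 (AlgebraicClosure K))) = v.asIdeal ∧
    ∀ y : 𝓞 (AlgebraicClosure K), x • y - y ^ (Ideal.absNorm v.asIdeal) ∈ Q

/-- The upper density of the set `S` of places is greater than `c`: for some `δ > c` there are
arbitrarily large `N` such that the proportion of the elements of `S` among the places of norm at most
`N` is at least `δ`. -/
def UpperDensityGreater (S : Set (HeightOneSpectrum (𝓞 K))) (c : ℝ) : Prop :=
  ∃ δ > c, ∀ M : ℕ, ∃ N ≥ M,
    δ * ({v : HeightOneSpectrum (𝓞 K) | Ideal.absNorm v.asIdeal ≤ N}.ncard : ℝ) ≤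
      ({v : HeightOneSpectrum (𝓞 K) | v ∈ S ∧ Ideal.absNorm v.asIdeal ≤ N}.ncard : ℝ)

variable {k : Type*} [Field k]

/-- The continuous representation `σ` is attached to the system `a` of eigenvalues: at the places
outside `bad` the traces of the Frobenius elements are the `a v`, and the determinants the norms. -/
def Attached (bad : Set (HeightOneSpectrum (𝓞 K))) (a : HeightOneSpectrum (𝓞 K) → k)
    (σ : Gal K →* GL (Fin 2) k) : Prop :=
  IsOpen (σ.ker : Set (Gal K)) ∧ ∀ v ∉ bad, ∀ x, IsFrobenius v x →
    (σ x).val.trace = a v ∧ (σ x).val.det = (Ideal.absNorm v.asIdeal : k)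

variable {V : Type*} [AddCommGroup V] [Module k V]

/-- The operators `T v`, `v` outside `bad`, commute, and a representation is attached to each of their
systems of eigenvalues (for the cohomology of `Y₀(N)`: the theorem of Scholze). -/
structure IsHeckeModule (bad : Set (HeightOneSpectrum (𝓞 K)))
    (T : HeightOneSpectrum (𝓞 K) → V →ₗ[k] V) : Prop where
  commute : ∀ v ∉ bad, ∀ w ∉ bad, ∀ c, T v (T w c) = T w (T v c)
  attached : ∀ c : V, c ≠ 0 → ∀ a : HeightOneSpectrum (𝓞 K) → k, (∀ v ∉ bad, T v c = a v • c) →
    ∃ σ, Attached bad a σ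

/-- The set of the places `v` outside `bad` at which `T_v c = Tr(ρ(Frob_v)) c`. -/
def Identities {p : ℕ} [CharP k p] (bad : Set (HeightOneSpectrum (𝓞 K)))
    (T : HeightOneSpectrum (𝓞 K) → V →ₗ[k] V) (ρ : Gal K →* GL (Fin 2) (ZMod p)) (c : V) :
    Set (HeightOneSpectrum (𝓞 K)) :=
  {v | v ∉ bad ∧ ∃ x, IsFrobenius v x ∧
    T v c = ZMod.castHom (dvd_refl p) k (ρ x).val.trace • c}

end

section
open Pool.Agent.Y673.Loc Pool.Agent.H502.EC Pool.Agent.W401.Cheb

open scoped Classical in
theorem isRep_iff {K : Type} [Field K] [NumberField K] {A B : K} {p : ℕ}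
    {ρ : Gal K →* GL (Fin 2) (ZMod p)} :
    IsTorsionRepresentation A B p ρ ↔ IsRep A B p ρ := by
  constructor
  · rintro ⟨e, hb, hadd, hx⟩
    let F : TT A B p →+ (Fin 2 → ZMod p) :=
      AddMonoidHom.mk' (fun R => e R.1) (fun R S => hadd R.1 R.2 S.1 S.2)
    have hF : Function.Bijective F := by
      constructor
      · intro R S hRS
        exact Subtype.ext (hb.injOn R.2 S.2 hRS)
      · intro Q
        obtain ⟨P, hP, hPQ⟩ := hb.surjOn (Set.mem_univ Q)
        exact ⟨⟨P, hP⟩, hPQ⟩
    exact ⟨AddEquiv.ofBijective F hF, fun x R => hx x R.1 R.2⟩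
  · rintro ⟨f, hf⟩
    let e : Points A B → (Fin 2 → ZMod p) := fun P => by
      by_cases hP : P ∈ Torsion A B p
      · exact f ⟨P, hP⟩
      · exact 0
    have he : ∀ P (hP : P ∈ Torsion A B p), e P = f ⟨P, hP⟩ := by
      intro P hP
      simp only [e]
      rw [dif_pos hP]
    refine ⟨e, ⟨?_, ?_, ?_⟩, ?_, ?_⟩
    · intro P _
      exact Set.mem_univ _
    · intro P hP Q hQ hPQ
      rw [he P hP, he Q hQ] at hPQ
      exact congrArg Subtype.val (f.injective hPQ)
    · intro Q _
      obtain ⟨R, hR⟩ := f.surjective Q
      exact ⟨R.1, R.2, by rw [he R.1 R.2]; exact hR⟩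
    · intro P hP Q hQ
      have hPQ : P + Q ∈ Torsion A B p := by
        change p • (P + Q) = 0
        rw [smul_add, show p • P = 0 from hP, show p • Q = 0 from hQ, add_zero]
      rw [he _ hPQ, he P hP, he Q hQ]
      exact f.map_add ⟨P, hP⟩ ⟨Q, hQ⟩
    · intro σ P hP
      have h1 : conj σ P ∈ Torsion A B p := (aa A B p σ ⟨P, hP⟩).2
      rw [he _ h1, he P hP]
      exact hf σ ⟨P, hP⟩

end

/-- **Main theorem.** Let the image of the Galois group in `Aut(E[p])`, `p ≥ 5`, contain `SL₂(𝔽_p)`. If
the identities of the conjecture hold for some nonzero class `c` at a set of places of upper density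
greater than `1 / (p - 1)`, then all the identities of some quadratic twist of `E` hold for some nonzero
class `c'`; if the upper density is greater than `p / (2 (p - 1))`, then all the identities of `E` hold
for some nonzero class `c'`. -/
theorem result (K : Type) [Field K] [NumberField K] (p : ℕ) (hp : p.Prime) (h5 : 5 ≤ p)
    (k : Type*) [Field k] [IsAlgClosed k] [CharP k p]
    (V : Type*) [AddCommGroup V] [Module k V] [FiniteDimensional k V]
    (bad : Set (HeightOneSpectrum (𝓞 K))) (hbad : bad.Finite)
    (T : HeightOneSpectrum (𝓞 K) → V →ₗ[k] V) (hT : IsHeckeModule bad T)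
    (A B : 𝓞 K) (hE : 4 * A ^ 3 + 27 * B ^ 2 ≠ 0)
    (ρ : Gal K →* GL (Fin 2) (ZMod p)) (hρ : IsTorsionRepresentation (A : K) (B : K) p ρ)
    (hSL : ∀ M : Matrix (Fin 2) (Fin 2) (ZMod p), M.det = 1 → ∃ x, (ρ x).val = M)
    (c : V) (hc : c ≠ 0) (hdens : UpperDensityGreater (Identities bad T ρ c) ((1 : ℝ) / (p - 1))) :
    ∃ d : 𝓞 K, d ≠ 0 ∧
      (UpperDensityGreater (Identities bad T ρ c) ((p : ℝ) / (2 * (p - 1))) → d = 1) ∧
      ∃ (ρd : Gal K →* GL (Fin 2) (ZMod p)) (c' : V),
        IsTorsionRepresentation ((A * d ^ 2 : 𝓞 K) : K) ((B * d ^ 3 : 𝓞 K) : K) p ρd ∧ c' ≠ 0 ∧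
        ∀ v ∉ bad, ∀ x, IsFrobenius v x →
          T v c' = ZMod.castHom (dvd_refl p) k (ρd x).val.trace • c' := by
  haveI : Fact p.Prime := ⟨hp⟩
  obtain ⟨d, hd, h1, ρd, c', h2, h3, h4⟩ := Pool.Agent.H502.EC.hecke_main (k := k) h5 hE
    (isRep_iff.1 hρ) hSL bad hbad T hT.commute hT.attached hc hdens
  exact ⟨d, hd, h1, ρd, c', isRep_iff.2 h2, h3, h4⟩

end Pool.Agent.Results.MP_3099cf_nt.FewHeckeIdentities
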